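import Pool.Agent.L7h28.HF.Stm

set_option autoImplicit false

/-!
Project HF (MP_b7f146_ag): LC, continuation at a point with `τ = 0`.
-/

namespace Pool.Agent.L7h65.HF

open Set Filter Topology
open Pool.Agent.L7h28.HF

lemma frm_diff (n : ℕ) (h : ℕ → ℝ) : Differentiable ℝ (frm n h) := by
  unfold frm
  fun_prop

lemma G_cont_snd (a : ℝ) (b c : ℕ → ℝ) (θ : ℝ) : Continuous (fun τ : ℝ => G a b c θ τ) := by
  unfold G
  fun_prop

lemma G_cont_fst (a : ℝ) (b c : ℕ → ℝ) (τ : ℝ) : Continuous (fun θ : ℝ => G a b c θ τ) := by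
  unfold G
  have h1 := (frm_diff 4 b).continuous
  have h2 := (frm_diff 8 c).continuous
  fun_prop

/-- sign change at a simple zero -/
lemma sign_change {f : ℝ → ℝ} {D x0 : ℝ} (hf : HasDerivAt f D x0) (hD : D ≠ 0) (h0 : f x0 = 0)
    {ε : ℝ} (hε : 0 < ε) : ∃ h : ℝ, 0 < h ∧ h < ε ∧ f (x0 - h) * f (x0 + h) < 0 := by
  have h1 := hasDerivAt_iff_tendsto_slope.1 hf
  have hDD : 0 < D * D := mul_self_pos.2 hD
  have h2 : ∀ᶠ y in 𝓝[≠] x0, 0 < slope f x0 y * D := (h1.mul_const D).eventually (lt_mem_nhds hDD)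
  rw [eventually_nhdsWithin_iff, Metric.eventually_nhds_iff] at h2
  obtain ⟨δ, hδ, h3⟩ := h2
  have hm : 0 < min ε δ := lt_min hε hδ
  obtain ⟨h, hh⟩ : ∃ h, h = min ε δ / 2 := ⟨_, rfl⟩
  have hpos : 0 < h := by rw [hh]; linarith
  have hlt : h < min ε δ := by rw [hh]; linarith
  have hδ' : h < δ := hlt.trans_le (min_le_right _ _)
  refine ⟨h, hpos, hlt.trans_le (min_le_left _ _), ?_⟩
  have e1 := h3 (y := x0 + h) (by
    rw [Real.dist_eq, add_sub_cancel_left, abs_of_pos hpos]; exact hδ')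
    (by simp only [mem_compl_iff, mem_singleton_iff]; intro hc; linarith)
  have e2 := h3 (y := x0 - h) (by
    rw [Real.dist_eq]
    have : x0 - h - x0 = -h := by ring
    rw [this, abs_neg, abs_of_pos hpos]; exact hδ')
    (by simp only [mem_compl_iff, mem_singleton_iff]; intro hc; linarith)
  rw [slope_def_field, h0, sub_zero] at e1 e2
  have e3 : x0 + h - x0 = h := by ring
  have e4 : x0 - h - x0 = -h := by ring
  rw [e3] at e1
  rw [e4] at e2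
  have e5 := mul_pos e1 e2
  have e6 : f (x0 + h) / h * D * (f (x0 - h) / -h * D) =
      -(f (x0 - h) * f (x0 + h) * (D * D) / (h * h)) := by
    field_simp
  rw [e6] at e5
  by_contra hc
  push Not at hc
  have : 0 ≤ f (x0 - h) * f (x0 + h) * (D * D) / (h * h) := by positivity
  linarith

/-- near a point of the piece every point of the curve is in the piece -/
lemma near {a : ℝ} {b c : ℕ → ℝ} {K : Set (ℝ × ℝ)} (hK : Pc a b c K) {θ0 τ0 : ℝ}
    (h0 : (θ0, τ0) ∈ K) : ∃ r : ℝ, 0 < r ∧ ∀ θ τ : ℝ, |θ - θ0| < r → |τ - τ0| < r →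
      G a b c θ τ = 0 → (θ, τ) ∈ K := by
  have h1 : (θ0, τ0) ∈ ({p : ℝ × ℝ | G a b c p.1 p.2 = 0} \ K)ᶜ := fun h => h.2 h0
  have h2 := hK.rest.isOpen_compl.mem_nhds h1
  rw [Metric.mem_nhds_iff] at h2
  obtain ⟨r, hr, h3⟩ := h2
  refine ⟨r, hr, ?_⟩
  intro θ τ h4 h5 h6
  by_contra h7
  have h8 : (θ, τ) ∈ Metric.ball (θ0, τ0) r := by
    rw [Metric.mem_ball, Prod.dist_eq, max_lt_iff, Real.dist_eq, Real.dist_eq]
    exact ⟨h4, h5⟩
  exact h3 h8 ⟨h6, h7⟩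

theorem s_LC : S_LC := by
  intro a b c K ha hNS hK θ0 h0 ε hε
  have hG0 : G a b c θ0 0 = 0 := hK.sub (θ0, (0 : ℝ)) h0
  have hC0 : frm 8 c θ0 = 0 := by
    unfold G at hG0
    simpa using hG0
  have hdτ : HasDerivAt (fun x : ℝ => G a b c θ0 x) 0 0 := by
    unfold G
    have h1 : HasDerivAt (fun x : ℝ => a * x ^ 8 + frm 4 b θ0 * x ^ 4 + frm 8 c θ0)
        (a * ((8 : ℕ) * (0 : ℝ) ^ (8 - 1)) + frm 4 b θ0 * ((4 : ℕ) * (0 : ℝ) ^ (4 - 1))) 0 :=
      (((hasDerivAt_pow 8 (0 : ℝ)).const_mul a).add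
        ((hasDerivAt_pow 4 (0 : ℝ)).const_mul (frm 4 b θ0))).add_const _
    simpa using h1
  have hGθ : (fun x : ℝ => G a b c x 0) = frm 8 c := by
    funext x
    unfold G
    simp
  have hD := (frm_diff 8 c θ0).hasDerivAt
  have hD0 : deriv (frm 8 c) θ0 ≠ 0 := by
    intro h
    rw [h] at hD
    rw [← hGθ] at hD
    exact hNS θ0 0 hG0 hD hdτ
  obtain ⟨r, hr, hnear⟩ := near hK h0
  have hm : 0 < min ε r := lt_min hε hr
  obtain ⟨h, hpos, hlt, hsgn⟩ := sign_change hD hD0 hC0 hm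
  have c1 : Continuous (fun τ : ℝ => G a b c (θ0 - h) τ * G a b c (θ0 + h) τ) := by
    exact (G_cont_snd a b c (θ0 - h)).mul (G_cont_snd a b c (θ0 + h))
  have v1 : G a b c (θ0 - h) 0 * G a b c (θ0 + h) 0 < 0 := by
    have e1 := congrFun hGθ (θ0 - h)
    have e2 := congrFun hGθ (θ0 + h)
    beta_reduce at e1 e2
    rw [e1, e2]
    exact hsgn
  have ev1 : ∀ᶠ τ in 𝓝[>] (0 : ℝ), G a b c (θ0 - h) τ * G a b c (θ0 + h) τ < 0 :=
    (c1.continuousAt.eventually (gt_mem_nhds v1)).filter_mono nhdsWithin_le_nhds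
  have ev2 : ∀ᶠ τ in 𝓝[>] (0 : ℝ), a * τ ^ 4 + frm 4 b θ0 ≠ 0 := by
    by_cases hB : frm 4 b θ0 = 0
    · filter_upwards [self_mem_nhdsWithin] with τ hτ
      rw [hB, add_zero]
      exact mul_ne_zero ha (pow_ne_zero _ (ne_of_gt hτ))
    · have c2 : Continuous (fun τ : ℝ => a * τ ^ 4 + frm 4 b θ0) := by fun_prop
      have v2 : a * (0 : ℝ) ^ 4 + frm 4 b θ0 ≠ 0 := by simpa using hB
      exact (c2.continuousAt.eventually_ne v2).filter_mono nhdsWithin_le_nhds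
  have ev3 : ∀ᶠ τ in 𝓝[>] (0 : ℝ), τ < min ε r :=
    (gt_mem_nhds hm).filter_mono nhdsWithin_le_nhds
  have ev4 : ∀ᶠ τ in 𝓝[>] (0 : ℝ), 0 < τ := self_mem_nhdsWithin
  obtain ⟨τ, h1, h2, h3, h4⟩ := (ev1.and (ev2.and (ev3.and ev4))).exists
  have c3 : Continuous (fun θ : ℝ => G a b c θ τ) := G_cont_fst a b c τ
  have h5 : (0 : ℝ) ∈ uIcc (G a b c (θ0 - h) τ) (G a b c (θ0 + h) τ) := by
    rw [mem_uIcc]
    rcases mul_neg_iff.1 h1 with ⟨p, q⟩ | ⟨p, q⟩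
    · exact Or.inr ⟨q.le, p.le⟩
    · exact Or.inl ⟨p.le, q.le⟩
  obtain ⟨θ, h6, h7⟩ := intermediate_value_uIcc c3.continuousOn h5
  rw [uIcc_of_le (by linarith)] at h6
  have h8 : |θ - θ0| ≤ h := abs_le.2 ⟨by linarith [h6.1], by linarith [h6.2]⟩
  have h9 : |θ - θ0| < min ε r := lt_of_le_of_lt h8 hlt
  refine ⟨θ, τ, ?_, h9.trans_le (min_le_left _ _), h4, h3.trans_le (min_le_left _ _), ?_⟩
  · rintro rfl
    have h10 : G a b c θ τ = τ ^ 4 * (a * τ ^ 4 + frm 4 b θ) := by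
      unfold G
      rw [hC0]
      ring
    have h11 : G a b c θ τ = 0 := h7
    rw [h10] at h11
    exact mul_ne_zero (pow_ne_zero _ (ne_of_gt h4)) h2 h11
  · apply hnear θ τ (h9.trans_le (min_le_right _ _)) _ h7
    rw [sub_zero, abs_of_pos h4]
    exact h3.trans_le (min_le_right _ _)

end Pool.Agent.L7h65.HF
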