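import Pool.Agent.L7h64.HF.Stm2
import Pool.Agent.L7h65.HF.Lc

set_option autoImplicit false

/-!
Project HF, second step (MP_b7f146_ag): WIN.
-/

namespace Pool.Agent.L7h65.HF

open Set Filter Topology
open Pool.Agent.L7h28.HF
open Pool.Agent.L7h64.HF

lemma last_zero {D : ℝ → ℝ} (hD : Continuous D) {α t : ℝ} (hαt : α < t) (h1 : D α < 0)
    (h2 : 0 < D t) : ∃ s : ℝ, α < s ∧ s < t ∧ D s = 0 ∧ ∀ θ, s < θ → θ ≤ t → 0 < D θ := by
  have hne : (Icc α t ∩ {x | D x = 0}).Nonempty := by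
    obtain ⟨x, hx, h0⟩ := intermediate_value_Icc hαt.le hD.continuousOn
      (show (0 : ℝ) ∈ Icc (D α) (D t) from ⟨h1.le, h2.le⟩)
    exact ⟨x, hx, h0⟩
  have hcl : IsClosed {x | D x = 0} := isClosed_eq hD continuous_const
  have hcpt : IsCompact (Icc α t ∩ {x | D x = 0}) := isCompact_Icc.inter_right hcl
  obtain ⟨s, hs, hmax⟩ := hcpt.exists_isGreatest hne
  have hs0 : D s = 0 := hs.2
  have hs1 : s ≠ α := by rintro rfl; rw [hs0] at h1; exact lt_irrefl _ h1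
  have hs2 : s ≠ t := by rintro rfl; rw [hs0] at h2; exact lt_irrefl _ h2
  refine ⟨s, lt_of_le_of_ne hs.1.1 (Ne.symm hs1), lt_of_le_of_ne hs.1.2 hs2, hs0, ?_⟩
  intro θ hsθ hθt
  by_contra hc
  push Not at hc
  obtain ⟨x, hx, h0⟩ := intermediate_value_Icc hθt hD.continuousOn
    (show (0 : ℝ) ∈ Icc (D θ) (D t) from ⟨hc, h2.le⟩)
  have hx2 : x ∈ Icc α t ∩ {x | D x = 0} := by
    refine ⟨⟨?_, hx.2⟩, h0⟩
    exact (hs.1.1.trans hsθ.le).trans hx.1
  have := hmax hx2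
  linarith [hx.1]

lemma first_zero {D : ℝ → ℝ} (hD : Continuous D) {β t : ℝ} (htβ : t < β) (h1 : D β < 0)
    (h2 : 0 < D t) : ∃ s : ℝ, t < s ∧ s < β ∧ D s = 0 ∧ ∀ θ, t ≤ θ → θ < s → 0 < D θ := by
  have hc : Continuous (fun x => D (-x)) := hD.comp continuous_neg
  obtain ⟨s, h3, h4, h5, h6⟩ := last_zero (D := fun x => D (-x)) hc (α := -β) (t := -t)
    (by linarith) (by simpa using h1) (by simpa using h2)
  refine ⟨-s, by linarith, by linarith, h5, ?_⟩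
  intro θ h7 h8
  have := h6 (-θ) (by linarith) (by linarith)
  simpa using this

theorem s_WIN (hS : S_DSC) : S_WIN := by
  intro a b c α ha hNS hα
  by_cases hz : ∀ θ, frm 8 c θ ≠ 0
  · exact Or.inl hz
  right
  push Not at hz
  obtain ⟨θ0, hC0⟩ := hz
  have hG0 : G a b c θ0 0 = 0 := by
    unfold G
    rw [hC0]
    ring
  have hdτ : HasDerivAt (fun x : ℝ => G a b c θ0 x) 0 0 := by
    unfold G
    have h1 : HasDerivAt (fun x : ℝ => a * x ^ 8 + frm 4 b θ0 * x ^ 4 + frm 8 c θ0)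
        (a * ((8 : ℕ) * (0 : ℝ) ^ (8 - 1)) + frm 4 b θ0 * ((4 : ℕ) * (0 : ℝ) ^ (4 - 1))) 0 :=
      (((hasDerivAt_pow 8 (0 : ℝ)).const_mul a).add
        ((hasDerivAt_pow 4 (0 : ℝ)).const_mul (frm 4 b θ0))).add_const _
    simpa using h1
  have hGθ : (fun x : ℝ => G a b c x 0) = frm 8 c := by
    funext x
    unfold G
    simp
  have hD := (frm_diff 8 c θ0).hasDerivAt
  have hD0 : deriv (frm 8 c) θ0 ≠ 0 := by
    intro h
    rw [h] at hD
    rw [← hGθ] at hD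
    exact hNS θ0 0 hG0 hD hdτ
  obtain ⟨h, _, _, hsgn⟩ := sign_change hD hD0 hC0 one_pos
  have hneg : ∃ t0, a * frm 8 c t0 < 0 := by
    by_contra hc
    push Not at hc
    have e1 := mul_nonneg (hc (θ0 - h)) (hc (θ0 + h))
    have e2 : a * frm 8 c (θ0 - h) * (a * frm 8 c (θ0 + h)) =
        (a * a) * (frm 8 c (θ0 - h) * frm 8 c (θ0 + h)) := by ring
    rw [e2] at e1
    have e3 : 0 < a * a := mul_self_pos.2 ha
    have e4 := mul_neg_of_pos_of_neg e3 hsgn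
    linarith
  obtain ⟨t0, ht0⟩ := hneg
  have hper : Function.Periodic (frm 8 c) Real.pi := fun θ => hS.2.1 c θ
  obtain ⟨t, ht1, ht2, ht⟩ : ∃ t, α ≤ t ∧ t < α + Real.pi ∧ a * frm 8 c t < 0 := by
    have h1 := toIcoMod_mem_Ico Real.pi_pos α t0
    refine ⟨toIcoMod Real.pi_pos α t0, h1.1, h1.2, ?_⟩
    have h2 : toIcoMod Real.pi_pos α t0 = t0 - toIcoDiv Real.pi_pos α t0 • Real.pi := rfl
    rw [h2, hper.sub_zsmul_eq]
    exact ht0
  have hB : ∀ θ, dsc a b c θ = frm 4 b θ ^ 2 - 4 * (a * frm 8 c θ) := by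
    intro θ
    unfold dsc
    ring
  have htα : t ≠ α := by
    rintro rfl
    rw [hB] at hα
    have := sq_nonneg (frm 4 b t)
    linarith
  have hαt : α < t := lt_of_le_of_ne ht1 (Ne.symm htα)
  have hDt : 0 < dsc a b c t := by
    rw [hB]
    have := sq_nonneg (frm 4 b t)
    linarith
  have hDπ : dsc a b c (α + Real.pi) < 0 := by
    rw [hB, hS.2.1, hS.2.2, ← hB]
    exact hα
  have hcont : Continuous (dsc a b c) := by
    have h1 := (frm_diff 4 b).continuous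
    have h2 := (frm_diff 8 c).continuous
    have h3 : dsc a b c = fun θ => frm 4 b θ ^ 2 - 4 * a * frm 8 c θ := rfl
    rw [h3]
    fun_prop
  obtain ⟨s, s1, s2, s3, s4⟩ := last_zero hcont hαt hα hDt
  obtain ⟨s', r1, r2, r3, r4⟩ := first_zero hcont ht2 hDπ hDt
  refine ⟨s, t, s', s1, s2, r1, r2, s3, r3, ?_, ht⟩
  intro θ h1 h2
  rcases le_total θ t with h3 | h3
  · exact s4 θ h1 h3
  · exact r4 θ h3 h2

end Pool.Agent.L7h65.HF
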